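import Pool.Agent.Work.MP_9371de_an.All

/-!
# MP_9371de_an, Q1: decay of the sup norm for aggregation-diffusion, full positive answer

For every dimension `d ≥ 1`, every `ε > 0`, every bounded attractive `W ∈ L¹` and every
nonnegative initial datum, a global nonnegative mild solution of
`∂_t ρ = ε Δρ + ∇·(ρ ∇(W*ρ))` in the class `C([0,∞); L¹) ∩ L^∞_loc([0,∞); L^∞)` satisfies
`‖ρ(t)‖_{L^∞} → 0` as `t → ∞`.

The proof has three steps.

* Regularity and confinement (items `P*`, `R*`, `V*`, `J`, `Beta`, `FL`, `WT`): a mild solution
  is `C¹` in `x` for `t > 0` and is dominated, together with its gradient, by a slowly varying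
  integrable weight on compact time intervals of `(0,∞)`.
* A relative-entropy argument with respect to a slowly varying weight (items `CC`, `DL`, `EN`,
  `INT`, `ENTa`, `ENTb`, `SM0`, `D9a`, `D9b`, `Z`, `Lad`, `LP`): the free energy dissipation
  forces the local masses to spread.
* From local masses to the sup norm by parabolic smoothing (item `Sup`).
-/

open MeasureTheory Filter Topology
open Pool.Agent.Work.MP_9371de_an

namespace Pool.Agent.Results.MP_9371de_an.SupNormDecay

/-- Full positive answer to Q1: the sup norm of every solution tends to zero. -/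
theorem result (d : ℕ) (hd : 0 < d) (ε : ℝ) (hε : 0 < ε) (W : E d → ℝ)
    (hatt : Attractive W) (hbdd : ∃ C, ∀ x, |W x| ≤ C) (hint : Integrable W)
    (ρ0 : E d → ℝ) (ρ : ℝ → E d → ℝ) (hρ : IsSolution d ε W ρ0 ρ) :
    Tendsto (fun t => eLpNorm (ρ t) ⊤ volume) atTop (𝓝 0) :=
  main claimW itemSC allClean allGood allLP allSup d hd ε hε W hatt hbdd hint ρ0 ρ hρ

end Pool.Agent.Results.MP_9371de_an.SupNormDecay
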